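import Pool.Agent.T9h29.WQ.Spec

/-!
# Hamiltonian derivations (pieces P0a, P0b, P0c, P0d)
-/

set_option autoImplicit false

namespace Pool.Agent.T9h71.WQ

open MvPowerSeries Pool.Agent.T9h29.WQ TensorProduct

universe u

/-- Derivations extend along formally etale algebras. -/
theorem exists_derivation {K A L : Type*} [Field K] [CommRing A] [Algebra K A] [Field L]
    [Algebra K L] [Algebra A L] [IsScalarTower K A L] [Algebra.FormallyEtale A L]
    (D : Derivation K A A) :
    ∃ D' : Derivation K L L, ∀ a, D' (algebraMap A L a) = algebraMap A L (D a) := by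
  let e := KaehlerDifferential.tensorKaehlerEquivOfFormallyEtale K A L
  let φ : (Ω[L⁄K]) →ₗ[L] L :=
    (TensorProduct.AlgebraTensorModule.rid A L L).toLinearMap ∘ₗ
      (D.liftKaehlerDifferential.baseChange L) ∘ₗ e.symm.toLinearMap
  refine ⟨φ.compDer (KaehlerDifferential.D K L), fun a => ?_⟩
  have h1 : e.symm (KaehlerDifferential.D K L (algebraMap A L a)) =
      1 ⊗ₜ KaehlerDifferential.D K A a :=
    KaehlerDifferential.tensorKaehlerEquivOfFormallyEtale_symm_D_algebraMap K A L a
  change φ (KaehlerDifferential.D K L (algebraMap A L a)) = _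
  simp only [φ, LinearMap.comp_apply, LinearEquiv.coe_coe]
  rw [h1, LinearMap.baseChange_tmul, Derivation.liftKaehlerDifferential_comp_D,
    TensorProduct.AlgebraTensorModule.rid_tmul, Algebra.smul_def, mul_one]

theorem stmtP0d : StmtP0d.{u} := by
  intro k _ B _ _ _ D
  have : Algebra.FormallyEtale B (FractionRing B) :=
    Algebra.FormallyEtale.of_isLocalization (nonZeroDivisors B)
  exact exists_derivation D

theorem stmtP0c : StmtP0c.{u} := by
  intro k _ B _ _ _ D hD P hP
  rintro f ⟨a, s, hs, hf⟩
  obtain ⟨ca, hca⟩ := hD a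
  obtain ⟨cs, hcs⟩ := hD s
  refine ⟨ca * s - a * cs, s * s, fun h => ?_, ?_⟩
  · rcases hP.mem_or_mem h with h | h <;> exact hs h
  · have h1 := congrArg D hf
    rw [Derivation.leibniz, smul_eq_mul, smul_eq_mul, hca, hcs] at h1
    rw [map_sub, map_mul, map_mul, map_mul, ← hf]
    linear_combination (algebraMap B (FractionRing B) s) * h1

section

variable {k : Type u} [Field k]

/-- the derivation `f ↦ br w f h` -/
noncomputable def brD (w h : A k) : Derivation k (A k) (A k) :=
  w • (pderiv k 1 h • (pderiv k 0 : Derivation k (A k) (A k)) - pderiv k 0 h • pderiv k 1)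

theorem brD_apply (w h f : A k) : brD w h f = br w f h := by
  unfold brD br
  simp only [Derivation.smul_apply, Derivation.sub_apply, smul_eq_mul]
  ring

/-- conjugation of a derivation by an automorphism -/
noncomputable def conj (σ : A k ≃ₐ[k] A k) (D : Derivation k (A k) (A k)) :
    Derivation k (A k) (A k) :=
  Derivation.mk' (σ.symm.toLinearMap ∘ₗ (D : A k →ₗ[k] A k) ∘ₗ σ.toLinearMap) (by
    intro a b
    show σ.symm (D (σ (a * b))) = a • σ.symm (D (σ b)) + b • σ.symm (D (σ a))
    rw [map_mul, Derivation.leibniz, map_add, smul_eq_mul, smul_eq_mul, map_mul, map_mul,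
      AlgEquiv.symm_apply_apply, AlgEquiv.symm_apply_apply]
    rfl)

theorem conj_apply (σ : A k ≃ₐ[k] A k) (D : Derivation k (A k) (A k)) (f : A k) :
    conj σ D f = σ.symm (D (σ f)) := rfl

theorem der_eq_zero (h1a : StmtP1a.{u}) [CharP k 2] [IsAlgClosed k]
    (D : Derivation k (A k) (A k)) (h0 : D (X 0) = 0) (h1 : D (X 1) = 0) (f : A k) : D f = 0 := by
  have t2 : (2 : A k) = 0 := by
    have h2 : (2 : k) = 0 := by exact_mod_cast CharP.cast_eq_zero k 2
    have : (2 : A k) = C (2 : k) := (map_ofNat C 2).symm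
    rw [this, h2, map_zero]
  have sq : ∀ g : A k, D (g ^ 2) = 0 := by
    intro g
    rw [pow_two, Derivation.leibniz, smul_eq_mul]
    linear_combination g * D g * t2
  obtain ⟨f₀, f₁, f₂, f₃, rfl⟩ := h1a k f
  simp only [map_add, Derivation.leibniz, sq, h0, h1, smul_zero, add_zero]

theorem br_symm (w f g : A k) : br w f g = - br w g f := by
  unfold br; ring

end

theorem stmtP0a (h1a : StmtP1a.{u}) : StmtP0a.{u} := by
  intro k _ _ _ σ w hw
  -- the difference of the two derivations
  have key : ∀ g : A k, (∀ i : Fin 2, σ.symm (br w (σ (X i)) (σ g)) = br w (X i) g) →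
      ∀ f : A k, σ.symm (br w (σ f) (σ g)) = br w f g := by
    intro g hg f
    have h1 := der_eq_zero h1a (conj σ (brD w (σ g)) - brD w g) (by
      rw [Derivation.sub_apply, conj_apply, brD_apply, brD_apply, hg 0, sub_self]) (by
      rw [Derivation.sub_apply, conj_apply, brD_apply, brD_apply, hg 1, sub_self]) f
    rw [Derivation.sub_apply, conj_apply, brD_apply, brD_apply] at h1
    exact sub_eq_zero.1 h1
  have b00 : ∀ f : A k, br w f f = 0 := fun f => by unfold br; ring
  have b01 : br w (X 0) (X 1) = w := by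
    unfold br
    have h1 : pderiv k 0 (X 0 : A k) = 1 := by simp
    have h2 : pderiv k 1 (X 1 : A k) = 1 := by simp
    have h3 : pderiv k 1 (X 0 : A k) = 0 := by simp
    rw [h1, h2, h3]; ring
  have c01 : σ.symm (br w (σ (X 0)) (σ (X 1))) = br w (X 0) (X 1) := by
    rw [hw, AlgEquiv.symm_apply_apply, b01]
  have c10 : σ.symm (br w (σ (X 1)) (σ (X 0))) = br w (X 1) (X 0) := by
    rw [br_symm w (σ (X 1)), map_neg, c01, ← br_symm]
  have cX : ∀ i j : Fin 2, σ.symm (br w (σ (X i)) (σ (X j))) = br w (X i) (X j) := by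
    intro i j
    fin_cases i <;> fin_cases j
    · show σ.symm (br w (σ (X 0)) (σ (X 0))) = br w (X 0) (X 0)
      rw [b00, b00, map_zero]
    · exact c01
    · exact c10
    · show σ.symm (br w (σ (X 1)) (σ (X 1))) = br w (X 1) (X 1)
      rw [b00, b00, map_zero]
  have c2 : ∀ (j : Fin 2) (f : A k), σ.symm (br w (σ f) (σ (X j))) = br w f (X j) :=
    fun j f => key (X j) (fun i => cX i j) f
  have c3 : ∀ (f g : A k), σ.symm (br w (σ f) (σ g)) = br w f g := by
    intro f g
    refine key g (fun i => ?_) f
    rw [br_symm w (σ (X i)), map_neg, c2 i g, ← br_symm]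
  intro f g
  rw [← c3 f g, AlgEquiv.apply_symm_apply]

theorem stmtP0b : StmtP0b.{u} := by
  intro k _ σ w hw b hb
  have hinv : ∀ a : A k, σ a = a → σ (br w a b) = br w a b := by
    intro a ha
    rw [hw, ha, hb]
  let D0 : Derivation k (invariants σ) (invariants σ) :=
    Derivation.mk' {
      toFun := fun a => ⟨br w a.1 b, hinv a.1 a.2⟩
      map_add' := by
        intro a a'
        apply Subtype.ext
        show br w (a.1 + a'.1) b = br w a.1 b + br w a'.1 b
        rw [← brD_apply, ← brD_apply, ← brD_apply, map_add]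
      map_smul' := by
        intro c a
        apply Subtype.ext
        show br w (c • a.1) b = c • br w a.1 b
        rw [← brD_apply, ← brD_apply, Derivation.map_smul] } (by
      intro a a'
      apply Subtype.ext
      show br w (a.1 * a'.1) b = a.1 * br w a'.1 b + a'.1 * br w a.1 b
      rw [← brD_apply, ← brD_apply, ← brD_apply, Derivation.leibniz]
      rfl)
  obtain ⟨D, hD⟩ := stmtP0d k (invariants σ) D0
  refine ⟨D, fun a ha hc => ?_⟩
  unfold toK
  rw [hD]
  rfl

end Pool.Agent.T9h71.WQ
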