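import Pool.Agent.T9h71.WQ.P4

/-!
# The involution of example D (piece P3a)
-/

set_option autoImplicit false

namespace Pool.Agent.T9h71.WQ

open MvPowerSeries Pool.Agent.T9h29.WQ

universe u

variable {k : Type u} [Field k]

theorem stmtP3a : StmtP3a.{u} := by
  intro k _ _
  have t2 := two_eq k
  have t2' : (2 : A k) = 0 := by have := t2 1; rw [one_add_one_eq_two] at this; exact this
  have hu : ∀ i : Fin 2, ∃ w : A k, (1 + X i) * w = 1 := by
    intro i
    have h : IsUnit (1 + X i : A k) := by
      rw [MvPowerSeries.isUnit_iff_constantCoeff]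
      simp
    obtain ⟨w, hw⟩ := h.exists_right_inv
    exact ⟨w, hw⟩
  choose w hw using hu
  set a : Fin 2 → A k := fun i => X i * w i with ha
  have ha0 : ∀ i, constantCoeff (a i) = 0 := fun i => by simp [ha]
  have hs : HasSubst a := hasSubst_of_constantCoeff_zero ha0
  have s0 : ∀ i, subst a (X i : A k) = X i * w i := fun i => by rw [subst_X hs]
  have s1 : ∀ i, (1 + X i * w i) * subst a (w i) = 1 := by
    intro i
    have h := congrArg (subst a) (hw i)
    rw [subst_mul hs, subst_add hs, s0] at h
    have h1 : subst a (1 : A k) = 1 := by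
      rw [← substAlgHom_apply (R := k) hs, map_one]
    rw [h1] at h
    exact h
  have s2 : ∀ i, subst a (w i) = 1 + X i := by
    intro i
    have e : (1 + X i) * (1 + X i * w i) = 1 := by
      linear_combination X i * hw i + X i * t2'
    linear_combination (1 + X i) * s1 i - subst a (w i) * e
  have h1 : ∀ i, subst a (a i) = X i := by
    intro i
    show subst a (X i * w i) = X i
    rw [subst_mul hs, s0, s2]
    linear_combination X i * hw i
  obtain ⟨σ, hσ, hσ2⟩ := exists_invol a ha0 h1
  have hx : ∀ i, σ (X i * (X i * w i)) = X i * (X i * w i) := by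
    intro i
    rw [hσ, subst_mul hs, subst_mul hs, s0, s2]
    linear_combination (X i * (X i * w i)) * hw i
  have hX : ∀ i : Fin 2, X i * w i = X i + X i * (X i * w i) := by
    intro i
    linear_combination X i * hw i - (X i) ^ 2 * w i * t2'
  refine ⟨σ, X 0 * (X 0 * w 0), X 1 * (X 1 * w 1), ⟨?_, ?_, hx 0, hx 1, ?_, ?_⟩, ?_⟩
  · rw [hσ, s0]; exact hX 0
  · rw [hσ, s0]; exact hX 1
  · linear_combination X 0 ^ 2 * hw 0 - X 0 ^ 3 * w 0 * t2'
  · linear_combination X 1 ^ 2 * hw 1 - X 1 ^ 3 * w 1 * t2'
  refine orderOf_eq_prime ?_ ?_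
  · ext f : 1
    rw [pow_two]
    exact hσ2 f
  · intro h
    have h2 : σ (X 0) = X 0 := by rw [h]; rfl
    rw [hσ, s0, hX] at h2
    have h3 : (X 0 : A k) * (X 0 * w 0) = 0 := by linear_combination h2
    have h4 : (X 0 : A k) ^ 2 = 0 := by
      linear_combination (1 + X 0) * h3 - X 0 ^ 2 * hw 0
    have := congrArg (coeff (Finsupp.single 0 2)) h4
    rw [coeff_X_pow] at this
    simp at this

end Pool.Agent.T9h71.WQ
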