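import Pool.Agent.T9h29.WQ.Spec

/-!
# The involution of example E (piece P4) and of example D (piece P3a)
-/

set_option autoImplicit false

namespace Pool.Agent.T9h71.WQ

open MvPowerSeries Pool.Agent.T9h29.WQ

universe u

/-- A solution of `c = 1 + Z c ^ 4`. -/
theorem exists_c (k : Type u) [Field k] : ∃ c : PowerSeries k, c = 1 + PowerSeries.X * c ^ 4 := by
  let g : ℕ → PowerSeries k := fun n => Nat.rec 1 (fun _ c => 1 + PowerSeries.X * c ^ 4) n
  have g0 : g 0 = 1 := rfl
  have gs : ∀ n, g (n + 1) = 1 + PowerSeries.X * g n ^ 4 := fun n => rfl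
  have h1 : ∀ n, (PowerSeries.X : PowerSeries k) ^ (n + 1) ∣ g (n + 1) - g n := by
    intro n
    induction n with
    | zero => rw [gs, g0]; exact ⟨1, by ring⟩
    | succ n ih =>
      have e : g (n + 1 + 1) - g (n + 1) =
          PowerSeries.X * (g (n + 1) ^ 4 - g n ^ 4) := by
        rw [gs (n + 1), gs n]; ring
      rw [e, pow_succ']
      exact mul_dvd_mul_left _ (ih.trans (sub_dvd_pow_sub_pow _ _ 4))
  have h2 : ∀ n m, n ≤ m → (PowerSeries.X : PowerSeries k) ^ (n + 1) ∣ g m - g n := by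
    intro n m h
    induction m, h using Nat.le_induction with
    | base => simp
    | succ m hm ih =>
      have e : g (m + 1) - g n = (g (m + 1) - g m) + (g m - g n) := by ring
      rw [e]
      exact dvd_add ((pow_dvd_pow _ (by omega)).trans (h1 m)) ih
  let c : PowerSeries k := PowerSeries.mk fun n => PowerSeries.coeff n (g n)
  have h3 : ∀ m, (PowerSeries.X : PowerSeries k) ^ (m + 1) ∣ c - g m := by
    intro m
    rw [PowerSeries.X_pow_dvd_iff]
    intro j hj
    have h4 := PowerSeries.X_pow_dvd_iff.1 (h2 j m (by omega)) j (by omega)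
    rw [map_sub] at h4 ⊢
    rw [PowerSeries.coeff_mk]
    linear_combination -h4
  refine ⟨c, ?_⟩
  have h5 : ∀ n, (PowerSeries.X : PowerSeries k) ^ (n + 1) ∣ c - (1 + PowerSeries.X * c ^ 4) := by
    intro n
    have e : c - (1 + PowerSeries.X * c ^ 4) =
        (c - g (n + 1)) - PowerSeries.X * (c ^ 4 - g n ^ 4) := by
      rw [gs n]; ring
    rw [e]
    refine dvd_sub ((pow_dvd_pow _ (by omega)).trans (h3 (n + 1))) ?_
    refine Dvd.dvd.mul_left ?_ _
    exact (h3 n).trans (sub_dvd_pow_sub_pow _ _ 4)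
  have h6 : c - (1 + PowerSeries.X * c ^ 4) = 0 := by
    ext n
    have := PowerSeries.X_pow_dvd_iff.1 (h5 n) n (by omega)
    rw [this, map_zero]
  exact sub_eq_zero.1 h6

variable {k : Type u} [Field k]

/-- A solution of `x = u ^ 2 + u v ^ 2 + u v x ^ 4`. -/
theorem exists_x (k : Type u) [Field k] : ∃ x : A k,
    x = X 0 ^ 2 + X 0 * X 1 ^ 2 + X 0 * X 1 * x ^ 4 ∧ constantCoeff x = 0 := by
  obtain ⟨c, hc⟩ := exists_c k
  set S : A k := X 0 ^ 2 + X 0 * X 1 ^ 2 with hS
  set T : A k := X 0 * X 1 with hT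
  have hZ : PowerSeries.HasSubst (T * S ^ 3) :=
    PowerSeries.HasSubst.of_constantCoeff_zero (by simp [hT])
  have h1 := congrArg (PowerSeries.substAlgHom (R := k) hZ) hc
  rw [map_add, map_one, map_mul, map_pow, PowerSeries.substAlgHom_X] at h1
  set d := PowerSeries.substAlgHom (R := k) hZ c with hd
  refine ⟨S * d, ?_, by simp [hS]⟩
  calc S * d = S * (1 + T * S ^ 3 * d ^ 4) := by rw [← h1]
    _ = S + T * (S * d) ^ 4 := by ring

/-- A substitution which is an involution on the variables is an involution. -/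
theorem exists_invol (a : Fin 2 → A k) (h0 : ∀ i, constantCoeff (a i) = 0)
    (h1 : ∀ i, subst a (a i) = X i) : ∃ σ : A k ≃ₐ[k] A k, (∀ f, σ f = subst a f) ∧
      ∀ f, σ (σ f) = f := by
  have ha : HasSubst a := hasSubst_of_constantCoeff_zero h0
  have h2 : ∀ f : A k, subst a (subst a f) = f := by
    intro f
    rw [subst_comp_subst_apply ha ha]
    have : (fun s => subst a (a s)) = (X : Fin 2 → A k) := funext h1
    rw [this, subst_self]
    rfl
  have h3 : (substAlgHom (R := k) ha).comp (substAlgHom ha) = AlgHom.id k (A k) := by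
    ext f : 1
    rw [AlgHom.comp_apply, substAlgHom_apply, substAlgHom_apply, h2]
    rfl
  refine ⟨AlgEquiv.ofAlgHom (substAlgHom ha) (substAlgHom ha) h3 h3, fun f => ?_, fun f => ?_⟩
  · exact substAlgHom_apply ha f
  · show substAlgHom ha (substAlgHom ha f) = f
    rw [substAlgHom_apply, substAlgHom_apply, h2]

theorem two_eq (k : Type u) [Field k] [CharP k 2] (f : A k) : f + f = 0 := by
  have h : (2 : A k) = 0 := by
    have h2 : (2 : k) = 0 := by exact_mod_cast CharP.cast_eq_zero k 2
    have : (2 : A k) = C (2 : k) := (map_ofNat C 2).symm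
    rw [this, h2, map_zero]
  rw [← two_mul, h, zero_mul]

theorem stmtP4 : StmtP4.{u} := by
  intro k _ _
  have t2 := two_eq k
  have t2' : (2 : A k) = 0 := by have := t2 1; rw [one_add_one_eq_two] at this; exact this
  obtain ⟨x, hx, hx0⟩ := exists_x k
  set y : A k := X 1 ^ 2 + x ^ 4 * X 1 with hy
  have hy0 : constantCoeff y = 0 := by simp [hy]
  have hx' : x = X 0 ^ 2 + y * X 0 := by rw [hy]; linear_combination hx
  set a : Fin 2 → A k := ![X 0 + y, X 1 + x ^ 4] with ha
  have ha0 : ∀ i, constantCoeff (a i) = 0 := by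
    intro i
    fin_cases i
    · simp [ha, hy0]
    · simp [ha, hx0]
  have hs : HasSubst a := hasSubst_of_constantCoeff_zero ha0
  have s0 : subst a (X 0 : A k) = X 0 + y := by rw [subst_X hs]; rfl
  have s1 : subst a (X 1 : A k) = X 1 + x ^ 4 := by rw [subst_X hs]; rfl
  have e1 : subst a x = (X 0 + y) ^ 2 + subst a y * (X 0 + y) := by
    conv_lhs => rw [hx']
    rw [subst_add hs, subst_mul hs, subst_pow hs, s0]
  have e2 : subst a y = (X 1 + x ^ 4) ^ 2 + subst a x ^ 4 * (X 1 + x ^ 4) := by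
    conv_lhs => rw [hy]
    rw [subst_add hs, subst_mul hs, subst_pow hs, subst_pow hs, s1]
  set x' := subst a x with hx1
  set y' := subst a y with hy1
  have f1 : x' - x = (X 0 + y) * (y' - y) := by
    rw [e1]
    linear_combination (X 0 * y + y ^ 2) * t2' - hx'
  have f2 : y' - y = (X 1 + x ^ 4) * (x' - x) ^ 4 := by
    have e3 : (x' - x) ^ 4 = x' ^ 4 - x ^ 4 := by
      linear_combination (-2 * x' ^ 3 * x + 3 * x' ^ 2 * x ^ 2 - 2 * x' * x ^ 3 + x ^ 4) * t2'
    rw [e3, e2]
    linear_combination (X 1 * x ^ 4 + x ^ 8) * t2' - hy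
  have f3 : (x' - x) * (1 - (X 0 + y) * (X 1 + x ^ 4) * (x' - x) ^ 3) = 0 := by
    linear_combination f1 + (X 0 + y) * f2
  have f4 : (1 - (X 0 + y) * (X 1 + x ^ 4) * (x' - x) ^ 3) ≠ 0 := by
    intro h
    have := congrArg constantCoeff h
    simp [hy0] at this
  have f5 : x' = x := sub_eq_zero.1 ((mul_eq_zero.1 f3).resolve_right f4)
  have f6 : y' = y := by
    rw [f5, sub_self] at f2
    rw [← sub_eq_zero, f2]; simp
  have h1 : ∀ i, subst a (a i) = X i := by
    intro i
    fin_cases i
    · show subst a (X 0 + y) = X 0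
      rw [subst_add hs, s0, ← hy1, f6, add_assoc, t2, add_zero]
    · show subst a (X 1 + x ^ 4) = X 1
      rw [subst_add hs, subst_pow hs, s1, ← hx1, f5, add_assoc, t2, add_zero]
  obtain ⟨σ, hσ, hσ2⟩ := exists_invol a ha0 h1
  refine ⟨σ, x, y, ⟨by rw [hσ, s0], by rw [hσ, s1], by rw [hσ, ← hx1, f5], by rw [hσ, ← hy1, f6],
    hx', hy⟩, ?_⟩
  refine orderOf_eq_prime ?_ ?_
  · ext f : 1
    rw [pow_two]
    exact hσ2 f
  · intro h
    have h2 : σ (X 0) = X 0 := by rw [h]; rfl
    rw [hσ, s0] at h2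
    have h3 : y = 0 := by linear_combination h2
    have h4 : x = X 0 ^ 2 := by rw [hx', h3]; ring
    have h5 := hy
    rw [h3, h4] at h5
    have h6 : (X 1 : A k) * (X 1 + X 0 ^ 8) = 0 := by linear_combination -h5
    rcases mul_eq_zero.1 h6 with h7 | h7
    · have := congrArg (coeff (Finsupp.single 1 1)) h7
      rw [coeff_index_single_X] at this
      simp at this
    · have h8 : (Finsupp.single 1 1 : Fin 2 →₀ ℕ) ≠ Finsupp.single 0 8 := by
        intro h8
        have := DFunLike.congr_fun h8 0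
        simp at this
      have := congrArg (coeff (Finsupp.single 1 1)) h7
      rw [map_add, coeff_index_single_X, coeff_X_pow, if_neg h8] at this
      simp at this

end Pool.Agent.T9h71.WQ
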